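import Pool.Agent.Y887.QK.StmD
import Pool.Agent.Y15.T2.Sieve

/-!
# Project T2, second part: the choice of the parameters in the sieve (adapted from helper15's file)
-/

set_option autoImplicit false

namespace Pool.Agent.Y590.T2

open Finset Filter Pool.Agent.Y887.QKS
open Pool.Agent.Y15.T2 (ev_bound log_mul_le)

/-- the lower bound of the expected number -/
lemma Wd_ge {l : ℕ} [Fact l.Prime] {c : (ZMod l)ˣ} {Y κ Ex : ℕ} {ι : Type} [Fintype ι]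
    {V : ι → (ZMod l)ˣ → ℕ} {Ω : ι → (p : ℕ) → Finset (ZMod p × ZMod p)}
    (hS : SysY l c Y κ Ex ι V Ω) {K' N0 z : ℕ}
    (hV : ∀ z : ℕ, N0 ≤ z → ∀ g : ℕ → ℝ,
      (∀ p : ℕ, p.Prime → 0 ≤ g p ∧ g p ≤ (2 * κ : ℕ) / (p : ℝ)) →
      (∀ p : ℕ, p.Prime → p ≤ 2 * (2 * κ) → g p = 0) →
      1 / Real.log z ^ K' ≤ ∏ p ∈ pz z, (1 - g p))
    (hz : N0 ≤ z) (hz2 : 2 ≤ z) (hzl : z ≤ l) :
    (Y : ℝ) / Real.log l ^ K' ≤ Wd Ω Y z := by
  have h1 := hV z hz (fun p => ((OU Ω p).card : ℝ) / (p : ℝ) ^ 2) (by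
    intro p hp
    have hp0 : (0 : ℝ) < p := by exact_mod_cast hp.pos
    refine ⟨by positivity, ?_⟩
    have h2 : (OU Ω p).card ≤ κ * (2 * p) := by
      calc (OU Ω p).card ≤ ∑ i : ι, (Ω i p).card := card_biUnion_le
        _ ≤ ∑ _i : ι, 2 * p := sum_le_sum fun i _ => hS.two i p hp
        _ = κ * (2 * p) := by rw [sum_const, card_univ, hS.card, smul_eq_mul]
    have h3 : ((OU Ω p).card : ℝ) ≤ κ * (2 * p) := by exact_mod_cast h2
    rw [div_le_div_iff₀ (by positivity) hp0]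
    push_cast
    calc ((OU Ω p).card : ℝ) * p ≤ κ * (2 * p) * p := mul_le_mul_of_nonneg_right h3 hp0.le
      _ = 2 * κ * (p : ℝ) ^ 2 := by ring) (by
    intro p hp hpk
    have h2 : OU Ω p = ∅ := by
      unfold OU
      refine subset_empty.mp (biUnion_subset.mpr fun i _ => ?_)
      rw [hS.small i p hp (by linarith)]
    simp only [h2, card_empty, Nat.cast_zero, zero_div])
  unfold Wd
  rw [div_eq_mul_one_div]
  apply mul_le_mul_of_nonneg_left _ (Nat.cast_nonneg _)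
  refine le_trans ?_ h1
  have hz1 : (1 : ℝ) < z := by exact_mod_cast hz2
  have hlz : 0 < Real.log z := Real.log_pos hz1
  apply one_div_le_one_div_of_le (by positivity)
  apply pow_le_pow_left₀ hlz.le
  apply Real.log_le_log (by linarith)
  exact_mod_cast hzl

open Classical in
/-- T2-SIEVEY -/
theorem t_sieveY (hFL : ∃ B1 : ℕ, 1 ≤ B1 ∧ S_FL B1) (hrec : ∃ L : ℕ, S_rec L) (hV : S_V)
    (hcore : ∀ B1 L : ℕ, S_FL B1 → S_rec L → S_coreY B1 L) : S_sieveY := by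
  obtain ⟨B1, hB1, hFL⟩ := hFL
  obtain ⟨L, hrec⟩ := hrec
  intro Ex
  set c2 := Nat.log 2 (1024 * B1) + 1 with hc2
  refine ⟨10 * (L * (c2 + 4)) + 88 * Ex + 1, by omega, ?_⟩
  set C1 := 10 * (L * (c2 + 4)) + 88 * Ex + 1 with hC1
  intro κ hκ
  set lk := Nat.log 2 κ with hlk
  set t := Nat.log 2 (1024 * B1 * κ) + 1 with ht
  have hBk : 0 < B1 * κ := Nat.mul_pos (by omega) (by omega)
  have ht1 : 1024 * B1 * κ < 2 ^ t := Nat.lt_pow_succ_log_self (by norm_num) _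
  have ht2 : t + 1 ≤ (c2 + 4) * (lk + 1) := by
    have := log_mul_le (1024 * B1) κ (by omega) (by omega)
    have h2 : t ≤ c2 + lk + 1 := by omega
    nlinarith
  obtain ⟨K', N0, hV'⟩ := hV (2 * κ)
  refine ⟨(K' + 1) + 2 ^ (t + 1), ?_⟩
  intro E hE
  have hEr : (1 : ℝ) ≤ E := by exact_mod_cast hE
  obtain ⟨L1, hL1⟩ := ev_bound (K' + 3) (20480 * (2 * E)) (by positivity)
  refine ⟨max (max (max L1 (2 ^ 2 ^ (N0 + t))) (2 ^ 256)) (2 ^ (32 * E)), ?_⟩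
  intro ℓ _ hℓ' c ι _ V Ω hS
  have hℓ : max (max L1 (2 ^ 2 ^ (N0 + t))) (2 ^ 256) ≤ ℓ := (le_max_left _ _).trans hℓ'
  have hℓE : 2 ^ (32 * E) ≤ ℓ := (le_max_right _ _).trans hℓ'
  have hℓ1 : L1 ≤ ℓ := (le_max_left _ _).trans ((le_max_left _ _).trans hℓ)
  have hℓ2 : 2 ^ 2 ^ (N0 + t) ≤ ℓ := (le_max_right _ _).trans ((le_max_left _ _).trans hℓ)
  have hℓ3 : 2 ^ 256 ≤ ℓ := (le_max_right _ _).trans hℓ
  have hℓ0 : ℓ ≠ 0 := by
    intro h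
    rw [h] at hℓ3
    norm_num at hℓ3
  set l2 := Nat.log 2 ℓ with hl2
  have hl2a : 2 ^ l2 ≤ ℓ := Nat.pow_log_le_self 2 hℓ0
  have hl2b : ℓ < 2 ^ (l2 + 1) := Nat.lt_pow_succ_log_self (by norm_num) _
  have hl2c : 256 ≤ l2 := (Nat.le_log_iff_pow_le (by norm_num) hℓ0).mpr hℓ3
  have hl2d : 2 ^ (N0 + t) ≤ l2 := (Nat.le_log_iff_pow_le (by norm_num) hℓ0).mpr hℓ2
  have hl20 : l2 ≠ 0 := by omega
  have hll : N0 + t ≤ Nat.log 2 l2 := (Nat.le_log_iff_pow_le (by norm_num) hl20).mpr hl2d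
  set J := Nat.log 2 l2 - t with hJ
  have hJt : J + t = Nat.log 2 l2 := by omega
  have hJN : N0 ≤ J := by omega
  have hJ1 : 2 ^ (J + t) ≤ l2 := by
    rw [hJt]
    exact Nat.pow_log_le_self 2 hl20
  have hJ2 : l2 < 2 ^ (J + t + 1) := by
    rw [hJt]
    exact Nat.lt_pow_succ_log_self (by norm_num) _
  set m := l2 / 16 with hm
  have hm1 : 16 * m ≤ l2 := Nat.mul_div_le _ _
  have hm2 : l2 + 1 ≤ 16 * (m + 1) := by omega
  have hm3 : 16 ≤ m := by omega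
  have hJk : 2 ^ J * (1024 * B1 * κ) ≤ l2 := by
    calc 2 ^ J * (1024 * B1 * κ) ≤ 2 ^ J * 2 ^ t := Nat.mul_le_mul_left _ ht1.le
      _ = 2 ^ (J + t) := (pow_add _ _ _).symm
      _ ≤ l2 := hJ1
  have hJm : 2 ^ J * (2 * κ * B1) ≤ m := by
    rw [hm, Nat.le_div_iff_mul_le (by norm_num)]
    calc 2 ^ J * (2 * κ * B1) * 16 = 2 ^ J * (32 * B1 * κ) := by ring
      _ ≤ 2 ^ J * (1024 * B1 * κ) := by
        apply Nat.mul_le_mul_left
        nlinarith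
      _ ≤ l2 := hJk
  have h2J : 2 ^ J ≤ m := by
    refine le_trans ?_ hJm
    apply Nat.le_mul_of_pos_right
    nlinarith
  have hzs : 2 ^ 2 ^ J ≤ 2 ^ m := Nat.pow_le_pow_right (by norm_num) h2J
  have hsl : (2 ^ m) ^ 16 ≤ ℓ := by
    rw [← pow_mul, mul_comm]
    exact (Nat.pow_le_pow_right (by norm_num) hm1).trans hl2a
  have hls : ℓ < (2 * 2 ^ m) ^ 16 := by
    have e1 : (2 * 2 ^ m) ^ 16 = 2 ^ (16 * (m + 1)) := by
      rw [← pow_succ', ← pow_mul, mul_comm]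
    rw [e1]
    exact hl2b.trans_le (Nat.pow_le_pow_right (by norm_num) hm2)
  have hs16 : 2 ^ 16 ≤ 2 ^ m := Nat.pow_le_pow_right (by norm_num) hm3
  have hlJ : ℓ < 2 ^ 2 ^ (J + (t + 1)) := by
    refine hl2b.trans_le (Nat.pow_le_pow_right (by norm_num) ?_)
    rw [← add_assoc]
    omega
  have hzk : (2 ^ 2 ^ J) ^ (2 * κ * B1) ≤ 2 ^ m := by
    rw [← pow_mul]
    exact Nat.pow_le_pow_right (by norm_num) hJm
  have hzl : 2 ^ 2 ^ J ≤ ℓ := by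
    refine le_trans (Nat.pow_le_pow_right (by norm_num) ?_) hl2a
    omega
  have hz2 : 2 ≤ 2 ^ 2 ^ J := by
    calc 2 = 2 ^ 1 := (pow_one 2).symm
      _ ≤ 2 ^ 2 ^ J := Nat.pow_le_pow_right (by norm_num) Nat.one_le_two_pow
  have hzN : N0 ≤ 2 ^ 2 ^ J := by
    have e1 : J < 2 ^ J := Nat.lt_two_pow_self
    have e2 : 2 ^ J < 2 ^ 2 ^ J := Nat.lt_two_pow_self
    omega
  -- real estimates
  have hℓr : (2 : ℝ) ^ 256 ≤ ℓ := by exact_mod_cast hℓ3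
  have hℓpos : (0 : ℝ) < ℓ := lt_of_lt_of_le (by positivity) hℓr
  have hlog8 : 8 ≤ Real.log ℓ := by
    have e1 : Real.log ((2 : ℝ) ^ 256) ≤ Real.log ℓ := Real.log_le_log (by positivity) hℓr
    rw [Real.log_pow] at e1
    have := Real.log_two_gt_d9
    push_cast at e1
    linarith
  have hlogE : 16 * (E : ℝ) ≤ Real.log ℓ := by
    have hr : (2 : ℝ) ^ (32 * E) ≤ ℓ := by exact_mod_cast hℓE
    have e1 : Real.log ((2 : ℝ) ^ (32 * E)) ≤ Real.log ℓ := Real.log_le_log (by positivity) hr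
    rw [Real.log_pow] at e1
    have := Real.log_two_gt_d9
    push_cast at e1
    nlinarith
  have hY : (ℓ : ℝ) / (2 * E) ≤ ((ℓ / E : ℕ) : ℝ) := by
    have h2E : 2 * E ≤ ℓ := by
      have e1 : 32 * E < 2 ^ (32 * E) := Nat.lt_two_pow_self
      omega
    have e1 : ℓ < E * (ℓ / E + 1) := by
      have := Nat.lt_mul_div_succ ℓ (show 0 < E by omega)
      exact this
    have e2 : (ℓ : ℝ) < E * (((ℓ / E : ℕ) : ℝ) + 1) := by exact_mod_cast e1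
    have e3 : 2 * (E : ℝ) ≤ ℓ := by exact_mod_cast h2E
    rw [div_le_iff₀ (by positivity)]
    nlinarith
  have hlp' : 0 < Real.log ℓ := by linarith
  have hW : (ℓ : ℝ) / (2 * E) / Real.log ℓ ^ K' ≤ Wd Ω (ℓ / E) (2 ^ 2 ^ J) :=
    (div_le_div_of_nonneg_right hY (by positivity)).trans (Wd_ge hS hV' hzN hz2 hzl)
  have hR1 : 10 * (L * (t + 1)) + 88 * Ex + 1 ≤ C1 * (lk + 1) := by
    have e1 : L * (t + 1) ≤ L * (c2 + 4) * (lk + 1) := by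
      rw [mul_assoc]
      exact Nat.mul_le_mul_left _ ht2
    rw [hC1]
    nlinarith
  have hDel : 64 * ((2 ^ m : ℕ) : ℝ) ^ 2 * Del ℓ (2 ^ 2 ^ J) κ B1 ≤ Wd Ω (ℓ / E) (2 ^ 2 ^ J) := by
    refine le_trans ?_ hW
    have e8 : ∀ x : ℕ, x ^ 8 ≤ ℓ → (x : ℝ) ≤ (ℓ : ℝ) ^ (1 / 8 : ℝ) := by
      intro x hx
      have hx' : (x : ℝ) ^ 8 ≤ ℓ := by exact_mod_cast hx
      calc (x : ℝ) = ((x : ℝ) ^ 8) ^ (1 / 8 : ℝ) := by
            rw [← Real.rpow_natCast, ← Real.rpow_mul (Nat.cast_nonneg _)]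
            norm_num
        _ ≤ (ℓ : ℝ) ^ (1 / 8 : ℝ) := Real.rpow_le_rpow (by positivity) hx' (by norm_num)
    have hs2 : ((2 ^ m : ℕ) : ℝ) ^ 2 ≤ (ℓ : ℝ) ^ (1 / 8 : ℝ) := by
      have := e8 ((2 ^ m) ^ 2) (by
        rw [← pow_mul]
        exact hsl)
      push_cast at this ⊢
      exact this
    have hz6 : (((2 ^ 2 ^ J : ℕ) : ℝ)) ^ (6 * κ * B1) ≤ (ℓ : ℝ) ^ (1 / 8 : ℝ) := by
      have := e8 ((2 ^ 2 ^ J) ^ (6 * κ * B1)) (by
        rw [← pow_mul, ← pow_mul]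
        refine le_trans (Nat.pow_le_pow_right (by norm_num) ?_) hl2a
        calc 2 ^ J * (6 * κ * B1 * 8) = 2 ^ J * (48 * B1 * κ) := by ring
          _ ≤ 2 ^ J * (1024 * B1 * κ) := by
            apply Nat.mul_le_mul_left
            nlinarith
          _ ≤ l2 := hJk)
      push_cast at this ⊢
      exact this
    have hlz : (Nat.log 2 (2 ^ 2 ^ J) : ℝ) + 2 ≤ 5 * Real.log ℓ := by
      rw [Nat.log_pow (by norm_num)]
      have e1 : (2 : ℝ) ^ l2 ≤ ℓ := by exact_mod_cast hl2a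
      have e2 : Real.log ((2 : ℝ) ^ l2) ≤ Real.log ℓ := Real.log_le_log (by positivity) e1
      rw [Real.log_pow] at e2
      have e3 : ((2 ^ J : ℕ) : ℝ) ≤ l2 := by
        have : 2 ^ J ≤ l2 := by omega
        exact_mod_cast this
      have := Real.log_two_gt_d9
      nlinarith
    have hsq : Real.sqrt ℓ = (ℓ : ℝ) ^ (1 / 2 : ℝ) := Real.sqrt_eq_rpow _
    have h1l : (1 + Real.log ℓ) ^ 2 ≤ 4 * Real.log ℓ ^ 2 := by nlinarith
    have hlp : 0 < Real.log ℓ := by linarith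
    have hfin := hL1 ℓ hℓ1
    have hnn : (0 : ℝ) ≤ (Nat.log 2 (2 ^ 2 ^ J) : ℝ) + 2 := by positivity
    unfold Del
    rw [hsq]
    push_cast at hs2 hz6 ⊢
    calc 64 * ((2 : ℝ) ^ m) ^ 2 * (((Nat.log 2 (2 ^ 2 ^ J) : ℝ) + 2) *
          (2 * ((2 : ℝ) ^ 2 ^ J) ^ (6 * κ * B1)) *
          (8 * (ℓ : ℝ) ^ (1 / 2 : ℝ) * (1 + Real.log ℓ) ^ 2))
        ≤ 64 * (ℓ : ℝ) ^ (1 / 8 : ℝ) * ((5 * Real.log ℓ) * (2 * (ℓ : ℝ) ^ (1 / 8 : ℝ)) *
          (8 * (ℓ : ℝ) ^ (1 / 2 : ℝ) * (4 * Real.log ℓ ^ 2))) := by gcongr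
      _ = (20480 * Real.log ℓ ^ 3) *
          ((ℓ : ℝ) ^ (1 / 8 : ℝ) * (ℓ : ℝ) ^ (1 / 8 : ℝ) * (ℓ : ℝ) ^ (1 / 2 : ℝ)) := by ring
      _ = (20480 * Real.log ℓ ^ 3) * (ℓ : ℝ) ^ (3 / 4 : ℝ) := by
          rw [← Real.rpow_add hℓpos, ← Real.rpow_add hℓpos]
          norm_num
      _ ≤ (ℓ : ℝ) / (2 * E) / Real.log ℓ ^ K' := by
          rw [div_div, le_div_iff₀ (by positivity)]
          calc 20480 * Real.log ℓ ^ 3 * (ℓ : ℝ) ^ (3 / 4 : ℝ) * (2 * E * Real.log ℓ ^ K')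
              = (20480 * (2 * E) * Real.log ℓ ^ (K' + 3)) * (ℓ : ℝ) ^ (3 / 4 : ℝ) := by
                rw [pow_add]; ring
            _ ≤ (ℓ : ℝ) ^ (1 / 4 : ℝ) * (ℓ : ℝ) ^ (3 / 4 : ℝ) :=
                mul_le_mul_of_nonneg_right hfin (by positivity)
            _ = ℓ := by
                rw [← Real.rpow_add hℓpos]
                norm_num
  have hmain := hcore B1 L hFL hrec Ex κ ℓ (ℓ / E) J (t + 1) (2 ^ m) (C1 * (lk + 1)) c ι V Ω hS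
    hzs hsl
    hls hs16 hlJ hzk hDel hR1
  have hsub : (((univ : Finset (ZMod ℓ)ˣ).filter (fun x => vv c x < ℓ / E ∧
        ∑ i, (V i x).primeFactors.card ≤ κ * (C1 * (lk + 1)) ∧
          ∀ i, ∀ p : ℕ, p.Prime → p ∣ V i x → 2 ^ 2 ^ J < p)).card : ℝ) ≤
      (((univ : Finset (ZMod ℓ)ˣ).filter (fun x => vv c x < ℓ / E ∧
          ∑ i, (V i x).primeFactors.card ≤ κ * (C1 * (lk + 1)) ∧
          ∀ i, ∀ p : ℕ, p.Prime → p ∣ V i x → ℓ < p ^ ((K' + 1) + 2 ^ (t + 1)))).card : ℝ) := by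
    have := card_le_card (s := ((univ : Finset (ZMod ℓ)ˣ).filter (fun x => vv c x < ℓ / E ∧
        ∑ i, (V i x).primeFactors.card ≤ κ * (C1 * (lk + 1)) ∧
          ∀ i, ∀ p : ℕ, p.Prime → p ∣ V i x → 2 ^ 2 ^ J < p)))
      (t := ((univ : Finset (ZMod ℓ)ˣ).filter (fun x => vv c x < ℓ / E ∧
          ∑ i, (V i x).primeFactors.card ≤ κ * (C1 * (lk + 1)) ∧
          ∀ i, ∀ p : ℕ, p.Prime → p ∣ V i x → ℓ < p ^ ((K' + 1) + 2 ^ (t + 1))))) (by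
        intro x hx
        rw [mem_filter] at hx ⊢
        refine ⟨hx.1, hx.2.1, hx.2.2.1, fun i p hp hpd => ?_⟩
        have e1 := hx.2.2.2 i p hp hpd
        calc ℓ < 2 ^ 2 ^ (J + (t + 1)) := hlJ
          _ = (2 ^ 2 ^ J) ^ (2 ^ (t + 1)) := by rw [← pow_mul, ← pow_add]
          _ ≤ p ^ (2 ^ (t + 1)) := Nat.pow_le_pow_left e1.le _
          _ ≤ p ^ ((K' + 1) + 2 ^ (t + 1)) := Nat.pow_le_pow_right hp.pos (by omega))
    exact_mod_cast this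
  refine le_trans ?_ (hmain.trans hsub)
  refine le_trans ?_ (div_le_div_of_nonneg_right hW (by norm_num))
  have hlp : 0 < Real.log ℓ := by linarith
  rw [div_div, div_div]
  apply div_le_div_of_nonneg_left hℓpos.le (by positivity)
  calc 2 * (E : ℝ) * (Real.log ℓ ^ K' * 8) = Real.log ℓ ^ K' * (16 * E) := by ring
    _ ≤ Real.log ℓ ^ K' * Real.log ℓ :=
        mul_le_mul_of_nonneg_left hlogE (by positivity)
    _ = Real.log ℓ ^ (K' + 1) := (pow_succ _ _).symm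
    _ ≤ Real.log ℓ ^ ((K' + 1) + 2 ^ (t + 1)) := by
        apply pow_le_pow_right₀ (by linarith)
        omega

end Pool.Agent.Y590.T2
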